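import Pool.Agent.MP_57341d_ag.H73.MT

/-! Tensor constructions on the first cohomology: periods and the Mumford-Tate orbit. -/

open Matrix GPC73

namespace GPC96

variable {n R : Type} [Fintype n] [DecidableEq n] [CommRing R] {r : ℕ}

/-- The tensor power of the matrix `P`, applied to the tensor `t`. -/
def tp (P : Matrix n n R) (t : (Fin r → n) → R) (i : Fin r → n) : R :=
  ∑ j, (∏ a, P (i a) (j a)) * t j

/-- The matrix `X`, acting on the tensor `t` as a derivation. -/
def der (X : Matrix n n R) (t : (Fin r → n) → R) (i : Fin r → n) : R :=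
  ∑ a, ∑ m, X (i a) m * t (Function.update i a m)

/-- A Betti class in `H ^ {⊗ r} (k)`. -/
structure Ten (n : Type) where
  r : ℕ
  k : ℤ
  t : (Fin r → n) → ℚ

/-- The tangent space of the Mumford-Tate orbit of the family `S`: the Lie algebra of the Hodge
group acts by derivations and the weight cocharacter by the weight `r - 2 k`. -/
def orb (J : Matrix n n ℝ) (S : Set (Ten n)) : Submodule ℚ ((Σ τ : S, Fin τ.1.r → n) → ℚ) :=
  Submodule.span ℚ {f | ∃ X ∈ hull J, ∃ c : ℚ,
    ∀ τ i, f ⟨τ, i⟩ = der X τ.1.t i + c * (τ.1.r - 2 * τ.1.k) * τ.1.t i}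

/-- The field generated by the de Rham coordinates of the Betti classes in `S`. -/
noncomputable def perT {g N : ℕ} (A : AbVar g N) (S : Set (Ten (Fin (2 * g)))) :
    IntermediateField ℚ ℂ :=
  IntermediateField.adjoin ℚ {z | ∃ P : Matrix (Fin (2 * g)) (Fin (2 * g)) ℂ, P.det ≠ 0 ∧
    (∀ i, Pᵀ i ∈ A.dR) ∧ ∃ τ ∈ S, ∃ i,
      z = (2 * Real.pi * Complex.I) ^ τ.k * tp P⁻¹ (fun j => (τ.t j : ℂ)) i}

end GPC96
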