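import Pool.Agent.MP_57341d_ag.H72.WB
import Pool.Agent.MP_57341d_ag.HT.Defs

attribute [-instance] IntermediateField.module' LieAdmissibleAlgebra.toModule
  IsPurelyInseparable.instOfHasExponent RightPreLieAlgebra.toModule LeftPreLieAlgebra.toModule
  AlgHom.instNonUnitalAlgHomClassOfAlgHomClass RKHS.instFunLike
  NonUnitalAlgSemiHomClass.toDistribMulActionSemiHomClass Algebra.WeaklyEtale.flat
  Module.Invertible.instFaithfulSMul InnerProductSpace.toNormedSpace
  CommMonTypeEquivalenceCommMon.commMonCommMonoid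
  ContinuousMonoidHom.instCoeOutOfMonoidHomClassOfContinuousMapClass LieAlgebra.toModule
  IsPurelyInseparable.normal Algebra.IsFiniteSplit.instFree bot_nonempty Module.IsNoetherian.finite
  instCoeTCOfCoe IdemSemiring.toSemiring RingConeClass.toSubsemiringClass
  MulSemiringActionSemiHomClass.toDistribMulActionSemiHomClass littleWedderburn
  instNonUnitalAlgHomClassOfNonUnitalAlgEquivClass Algebra.Smooth.flat SetLike.GradeZero.instSemiring
  Nontrivial.to_nonempty AlgHomClass.toRingHomClass CommRing.Pic.instFreeOfSubsingleton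
  instCoeTOfCoeDep

/-! The period conjecture for tensor constructions on abelian varieties of CM type. -/

open Matrix Module GPC73 GPC42 GPC72 Complex NumberField ComplexEmbedding

namespace GPC96

section

section

variable {n R R' : Type} [Fintype n] [DecidableEq n] [CommRing R] [CommRing R'] {r : ℕ}

omit [DecidableEq n] in
theorem tp_mul (P Q : Matrix n n R) (t : (Fin r → n) → R) : tp P (tp Q t) = tp (P * Q) t := by
  funext i
  simp only [tp, mul_apply, Finset.mul_sum]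
  rw [Finset.sum_comm]
  refine Finset.sum_congr rfl fun l _ => ?_
  rw [Finset.prod_univ_sum, Fintype.piFinset_univ, Finset.sum_mul]
  exact Finset.sum_congr rfl fun j _ => by rw [Finset.prod_mul_distrib, mul_assoc]

theorem tp_diag (q : n → R) (t : (Fin r → n) → R) (i : Fin r → n) :
    tp (diagonal q) t i = (∏ a, q (i a)) * t i := by
  rw [tp, Finset.sum_eq_single i (fun j _ h => ?_) (by simp only [Finset.mem_univ, not_true_eq_false, diagonal_apply_eq, IsEmpty.forall_iff])]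
  · simp only [diagonal_apply_eq]
  · obtain ⟨a, ha⟩ := Function.ne_iff.1 h
    exact mul_eq_zero_of_left
      (Finset.prod_eq_zero (Finset.mem_univ a) (diagonal_apply_ne q ha.symm)) _

theorem tp_one (t : (Fin r → n) → R) : tp 1 t = t := funext fun i => by
  rw [← diagonal_one, tp_diag]
  simp only [Finset.prod_const_one, one_mul]

theorem der_tp {X V : Matrix n n R} {e : n → R} (h : X * V = V * diagonal e)
    (s : (Fin r → n) → R) : der X (tp V s) = tp V fun j => (∑ a, e (j a)) * s j := by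
  funext i
  simp only [der, tp, Finset.mul_sum, Finset.sum_mul]
  rw [Finset.sum_comm (s := Finset.univ (α := Fin r → n))]
  refine Finset.sum_congr rfl fun a _ => ?_
  rw [Finset.sum_comm]
  refine Finset.sum_congr rfl fun j _ => ?_
  have e1 : ∀ m, ∏ b, V (Function.update i a m b) (j b) =
      V m (j a) * ∏ b ∈ Finset.univ.erase a, V (i b) (j b) := fun m => by
    rw [← Finset.mul_prod_erase _ _ (Finset.mem_univ a), Function.update_self]
    exact congrArg _ (Finset.prod_congr rfl fun b hb => by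
      rw [Function.update_of_ne (Finset.ne_of_mem_erase hb)])
  have e2 := congrFun (congrFun h (i a)) (j a)
  rw [mul_diagonal, mul_apply] at e2
  simp only [e1, ← mul_assoc, ← Finset.sum_mul]
  rw [e2, ← Finset.mul_prod_erase _ _ (Finset.mem_univ a)]
  ring

omit [DecidableEq n] in
theorem der_map (f : R →+* R') (X : Matrix n n R) (t : (Fin r → n) → R) (i : Fin r → n) :
    f (der X t i) = der (X.map f) (fun j => f (t j)) i := by
  simp only [der, map_sum, map_mul, map_apply]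

omit [DecidableEq n] in
theorem tp_mem {Ω : Type} {L : Submodule ℂ (Ω → ℂ)} {Z : Ω → (Fin r → n) → ℂ}
    (h : ∀ j, (fun o => Z o j) ∈ L) (P : Matrix n n ℂ) (i : Fin r → n) :
    (fun o => tp P (Z o) i) ∈ L := by
  have : (fun o => tp P (Z o) i) = ∑ j, (∏ a, P (i a) (j a)) • fun o => Z o j := by
    funext o
    simp only [tp, Finset.sum_apply, Pi.smul_apply, smul_eq_mul]
  exact this ▸ L.sum_mem fun j _ => L.smul_mem _ (h j)

omit [DecidableEq n] in
theorem tp_alg {K : IntermediateField ℚ ℂ} {C : Matrix n n ℂ} (h : Al C) {c : ℂ}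
    {s : (Fin r → n) → ℂ} (hs : ∀ j, IsAlgebraic K (c * s j)) (i : Fin r → n) :
    IsAlgebraic K (c * tp C s i) := by
  simp only [tp, Finset.mul_sum, mul_left_comm c, ← mem_algebraicClosure_iff] at hs ⊢
  exact sum_mem fun j _ => mul_mem (prod_mem fun a _ =>
    mem_algebraicClosure_iff.2 ((h _ _).tower_top K)) (hs j)

end

variable {g N : ℕ}

theorem trdeg_T {A : AbVar g N} {V : Matrix (Fin (2 * g)) (Fin (2 * g)) ℂ} {q : Fin (2 * g) → ℂ}
    (hV : V.det ≠ 0) (ha : Al V) (hq : ∀ k, q k ≠ 0)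
    (hm : ∀ k, q k • Vᵀ k ∈ Submodule.span Qb A.dR) (S : Set (Ten (Fin (2 * g)))) :
    Algebra.trdeg ℚ (perT A S) = M.cRk {z | ∃ τ ∈ S, ∃ j, tp V⁻¹ (fun j => (τ.t j : ℂ)) j ≠ 0 ∧
      z = (∏ a, q (j a)) / (2 * Real.pi * I) ^ τ.k} := by
  have hd : IsUnit (diagonal q).det := by
    rw [det_diagonal]
    exact (Finset.prod_ne_zero_iff.2 fun k _ => hq k).isUnit
  have hW : IsUnit (V * diagonal q).det := by
    rw [det_mul]
    exact hV.isUnit.mul hd
  have hZ : ∀ (τ : Ten (Fin (2 * g))) j, (2 * Real.pi * I) ^ τ.k *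
      tp (V * diagonal q)⁻¹ (fun j => (τ.t j : ℂ)) j = tp V⁻¹ (fun j => (τ.t j : ℂ)) j *
        ((∏ a, q (j a)) / (2 * Real.pi * I) ^ τ.k)⁻¹ := fun τ j => by
    rw [Matrix.mul_inv_rev, inv_eq_left_inv (A := diagonal q) (B := diagonal fun k => (q k)⁻¹) (by
      simp [diagonal_mul_diagonal, hq]), ← tp_mul, tp_diag, Finset.prod_inv_distrib, inv_div]
    ring
  have hC : ∀ P : Matrix (Fin (2 * g)) (Fin (2 * g)) ℂ, P.det ≠ 0 → (∀ i, Pᵀ i ∈ A.dR) →
      Al (P⁻¹ * (V * diagonal q)) ∧ Al ((V * diagonal q)⁻¹ * P) := fun P hP hc => by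
    have h1 : Al (P⁻¹ * (V * diagonal q)) := fun i j => by
      convert dR_coord hP hc (hm j) i using 1
      simp only [mul_apply, diagonal_apply, mul_ite, mul_zero, Finset.sum_ite_eq', Finset.mem_univ, ↓ reduceIte, mul_comm, mulVec, dotProduct, Pi.smul_apply, transpose_apply, smul_eq_mul]
    have h2 := h1.inv
    rw [Matrix.mul_inv_rev, nonsing_inv_nonsing_inv _ hP.isUnit] at h2
    exact ⟨h1, h2⟩
  have hA : ∀ (τ : Ten (Fin (2 * g))) j (K : IntermediateField ℚ ℂ),
      IsAlgebraic K (tp V⁻¹ (fun j => (τ.t j : ℂ)) j) := fun τ j K => by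
    simpa only [one_mul] using tp_alg (K := K) ha.inv (c := 1) (s := fun j => (τ.t j : ℂ))
      (fun j => isAlgebraic_one.mul ((isAlgebraic_algebraMap (τ.t j)).tower_top K)) j
  rw [perT, trdeg_eq]
  refine le_antisymm (rk_le ?_) (rk_le ?_)
  · rintro _ ⟨P, hP, hc, τ, hτ, i, rfl⟩
    have := tp_alg (hC P hP hc).1 (c := (2 * Real.pi * I) ^ τ.k)
      (s := tp (V * diagonal q)⁻¹ fun j => (τ.t j : ℂ)) (K := IntermediateField.adjoin ℚ {z | ∃ τ ∈ S,
        ∃ j, tp V⁻¹ (fun j => (τ.t j : ℂ)) j ≠ 0 ∧ z = (∏ a, q (j a)) / (2 * Real.pi * I) ^ τ.k})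
      (fun j => by
        rw [hZ]
        by_cases h0 : tp V⁻¹ (fun j => (τ.t j : ℂ)) j = 0
        · rw [h0, zero_mul]
          exact isAlgebraic_zero
        · refine (hA τ j _).mul (mem_cl.1 (sub_cl _ ?_)).inv
          exact ⟨τ, hτ, j, h0, rfl⟩) i
    rw [tp_mul, mul_nonsing_inv_cancel_right _ _ hW] at this
    exact mem_cl.2 this
  · rintro _ ⟨τ, hτ, j, h0, rfl⟩
    obtain ⟨P, hP, hc⟩ := exists_basis A
    replace hP : Pᵀ.det ≠ 0 := by rwa [det_transpose]
    have := tp_alg (hC _ hP hc).2 (c := (2 * Real.pi * I) ^ τ.k)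
      (s := tp Pᵀ⁻¹ fun j => (τ.t j : ℂ)) (K := perT A S)
      (fun i => mem_cl.1 (sub_cl _ ⟨_, hP, hc, τ, hτ, i, rfl⟩)) j
    rw [tp_mul, mul_nonsing_inv_cancel_right _ _ hP.isUnit, hZ] at this
    have h1 := ((hA τ j (perT A S)).inv.mul this).inv
    rw [inv_mul_cancel_left₀ h0, inv_inv] at h1
    exact mem_cl.2 h1

end

section

variable {E : Type} [Field E] [NumberField E] {n ι κ : Type} [Fintype n] [DecidableEq n]

/-- A pair (weight, element of `E`) as a function on the characters. -/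
noncomputable def zz : (ℚ × E) →ₗ[ℚ] Option (E →+* ℂ) → ℂ :=
  LinearMap.pi fun o => o.elim (Algebra.linearMap ℚ ℂ ∘ₗ LinearMap.fst ℚ ℚ E)
    fun ψ => ψ.toRatAlgHom.toLinearMap ∘ₗ LinearMap.snd ℚ ℚ E

theorem zz_none (x : ℚ × E) : zz x none = x.1 := rfl

theorem zz_some (x : ℚ × E) (ψ : E →+* ℂ) : zz x (some ψ) = ψ x.2 := rfl

theorem rank_pair (x : κ → ℚ × E) :
    finrank ℚ (LinearMap.range (LinearMap.pi fun k => Dual.eval ℚ (ℚ × E) (x k))) =
      finrank ℂ (Submodule.span ℂ (Set.range fun k => zz (x k))) := by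
  have h1 := LinearMap.finrank_range_add_finrank_ker
    (LinearMap.pi fun k => Dual.eval ℚ (ℚ × E) (x k))
  have h2 := Subspace.finrank_add_finrank_dualAnnihilator_eq (Submodule.span ℚ (Set.range x))
  have h3 : LinearMap.ker (LinearMap.pi fun k => Dual.eval ℚ (ℚ × E) (x k)) =
      (Submodule.span ℚ (Set.range x)).dualAnnihilator := by
    ext l
    rw [← SetLike.mem_coe (p := Submodule.dualAnnihilator _), Submodule.coe_dualAnnihilator_span]
    simp only [LinearMap.mem_ker, funext_iff, LinearMap.pi_apply, Dual.eval_apply, Pi.zero_apply, Set.range_subset_iff, SetLike.mem_coe, Set.mem_ofPred_eq]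
  rw [h3, Subspace.dual_finrank_eq] at h1
  rw [show finrank ℚ (LinearMap.range (LinearMap.pi fun k => Dual.eval ℚ (ℚ × E) (x k))) =
    finrank ℚ (Submodule.span ℚ (Set.range x)) by omega]
  let β := (Basis.singleton Unit ℚ).prod (finBasis ℚ E)
  let L := Fintype.linearCombination ℂ fun j => zz (β j)
  have hL : Function.Injective L := (injective_iff_map_eq_zero L).2 fun c hc => by
    have a := vec_perp (finBasis ℚ E) (c := fun l => c (Sum.inr l)) fun ψ => by
      simpa only [L, β, Basis.prod_apply, LinearMap.coe_inl, Basis.coe_singleton, Pi.comp_one, LinearMap.coe_inr, Fintype.linearCombination_apply, Finset.sum_apply, Pi.smul_apply, zz_some, smul_eq_mul, Fintype.sum_sum_type, Finset.univ_unique, PUnit.default_eq_unit, Sum.elim_inl, Function.const_apply, map_zero, mul_zero, Finset.sum_const_zero, Sum.elim_inr, Function.comp_apply, zero_add, Pi.zero_apply] using congrFun hc (some ψ)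
    funext j
    cases j with
    | inl j => simpa only [Pi.zero_apply, L, β, Basis.prod_apply, LinearMap.coe_inl, Basis.coe_singleton, Pi.comp_one, LinearMap.coe_inr, Fintype.linearCombination_apply, Finset.sum_apply, Pi.smul_apply, zz_none, smul_eq_mul, Fintype.sum_sum_type, Finset.univ_unique, PUnit.default_eq_unit, Sum.elim_inl, Function.const_apply, Rat.cast_one, mul_one, Finset.sum_singleton, Sum.elim_inr, Function.comp_apply, Rat.cast_zero, mul_zero, Finset.sum_const_zero, add_zero] using congrFun hc none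
    | inr j => exact congrFun a j
  rw [← LinearEquiv.finrank_map_eq β.equivFun, Submodule.map_span, ← Set.range_comp, ← finrank_bc,
    show bc (Submodule.span ℚ (Set.range _)) = _ from lin_span _,
    (Submodule.equivMapOfInjective _ hL _).finrank_eq, Submodule.map_span, ← Set.range_comp]
  refine congrArg (fun f => finrank ℂ (Submodule.span ℂ (Set.range f))) (funext fun k => ?_)
  conv_rhs => rw [← β.sum_repr (x k), map_sum]
  simp only [L, Fintype.linearCombination_apply, Function.comp, map_smul]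
  exact Finset.sum_congr rfl fun j _ => Rat.cast_smul_eq_qsmul ℂ _ _

/-- The characters that occur in `S`. -/
def chr (V : Matrix n n ℂ) (ε : n → Option (E →+* ℂ) → ℤ) (S : Set (Ten n)) :
    Set (Option (E →+* ℂ) → ℤ) :=
  {u | ∃ τ ∈ S, ∃ j, tp V⁻¹ (fun j => (τ.t j : ℂ)) j ≠ 0 ∧ u = ∑ a, ε (j a) - τ.k • (4 : ℤ) • e₀}

theorem rank_T [IsGalois ℚ E] {J : Matrix n n ℝ} (T : Ev J E ι) (h : Cm J) (b₀ : E →+* ℂ)
    (s : n → ι × (E →+* ℂ)) {V : Matrix n n ℂ}
    (hs : V = Matrix.of fun j k => (s k).2 (T.w (s k).1 j)) (hV : V.det ≠ 0) (S : Set (Ten n))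
    {U : Submodule ℚ (Option (E →+* ℂ) → ℚ)}
    (hU : U = Submodule.span ℚ (cst '' chr V (fun k => ex 2 b₀ (T.Φ (s k).1) (s k).2) S)) :
    ∃ x : (Σ τ : S, Fin τ.1.r → n) → E,
      (∀ q, ((der J (fun j => (q.1.1.t j : ℝ)) q.2 : ℝ) : ℂ) = I * b₀ (x q)) ∧
      bc U = Submodule.span ℂ (Set.range fun q =>
        zz (2 * (q.1.1.r - 2 * q.1.1.k) * q.1.1.t q.2, x q)) ∧
      finrank ℚ (orb J S) = finrank ℚ U := by
  obtain ⟨μ, hμ, he⟩ := T.exists_m b₀
  let x : (Σ τ : S, Fin τ.1.r → n) → E := fun q => der μ (fun j => (q.1.1.t j : E)) q.2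
  have hl : ∀ (l : Dual ℚ E) q, l (x q) = der (μ.map l) q.1.1.t q.2 := fun l q => by
    simp only [x, der, mul_comm (μ _ _), ← Rat.smul_def, map_sum, map_smul, smul_eq_mul, map_apply, mul_comm (l _)]
  have h2 : bc U = Submodule.span ℂ (Set.range fun q : Σ τ : S, Fin τ.1.r → n =>
      zz (2 * (q.1.1.r - 2 * q.1.1.k) * q.1.1.t q.2, x q)) := by
    obtain ⟨ε, hε⟩ : ∃ ε : n → Option (E →+* ℂ) → ℤ, ∀ k, ex 2 b₀ (T.Φ (s k).1) (s k).2 = ε k :=
      ⟨_, fun _ => rfl⟩
    simp only [hε] at hU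
    have u1 := mul_nonsing_inv V (Ne.isUnit hV)
    have u2 := nonsing_inv_mul V (Ne.isUnit hV)
    let Z : (τ : S) → Option (E →+* ℂ) → (Fin τ.1.r → n) → ℂ := fun τ o j =>
      ((∑ a, ε (j a) - τ.1.k • (4 : ℤ) • e₀ : _ → ℤ) o : ℤ) * tp V⁻¹ (fun j => (τ.1.t j : ℂ)) j
    have hZ : ∀ (τ : S) o, tp V (Z τ o) = fun i =>
        zz (2 * (τ.1.r - 2 * τ.1.k) * τ.1.t i, x ⟨τ, i⟩) o := by
      rintro τ (_ | ψ)
      · funext i
        have := congrFun (tp_mul V V⁻¹ fun j => (τ.1.t j : ℂ)) i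
        rw [u1, tp_one] at this
        rw [zz_none]
        push_cast
        rw [← this, tp, tp, Finset.mul_sum]
        refine Finset.sum_congr rfl fun j _ => ?_
        simp only [Z, ← hε, zsmul_eq_mul, Int.cast_ofNat, Pi.sub_apply, Finset.sum_apply, ex, Int.reduceNeg, Pi.mul_apply, Pi.intCast_apply, Int.cast_eq, Pi.ofNat_apply, e₀, Int.cast_sub, Int.cast_sum, Int.cast_mul, Option.elim_none, Finset.sum_const, Finset.card_univ, Fintype.card_fin, nsmul_eq_mul, Int.cast_one, mul_one]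
        ring
      · have e2 : μ.map ψ * V = V * diagonal fun k => (ε k (some ψ) : ℂ) := by
          ext j k
          have := congrFun (he (s k).1 (s k).2 ψ) j
          rw [mul_diagonal, mul_comm, hs, ← hε]
          exact this
        have := der_tp e2 (tp V⁻¹ fun j => (τ.1.t j : ℂ))
        rw [tp_mul, u1, tp_one] at this
        funext i
        rw [zz_some, der_map]
        simp only [map_ratCast, this, Z]
        simp only [zsmul_eq_mul, Int.cast_ofNat, Pi.sub_apply, Finset.sum_apply, Pi.mul_apply, Pi.intCast_apply, Int.cast_eq, Pi.ofNat_apply, e₀, Option.elim_some, mul_zero, sub_zero, Int.cast_sum]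
    have hc : ∀ (τ : S) j, (fun o => Z τ o j) = tp V⁻¹ (fun j => (τ.1.t j : ℂ)) j •
        fun o => algebraMap ℚ ℂ (cst (∑ a, ε (j a) - τ.1.k • (4 : ℤ) • e₀) o) := fun τ j => by
      funext o
      simp only [Z, cst, Pi.smul_apply, smul_eq_mul, map_intCast, mul_comm]
    subst hU
    refine le_antisymm (Submodule.span_le.2 ?_) (Submodule.span_le.2 ?_)
    · rintro _ ⟨u, hu, rfl⟩
      refine (Submodule.span_le (p := (Submodule.restrictScalars ℚ (Submodule.span ℂ _)).comap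
        ((Algebra.linearMap ℚ ℂ).compLeft _))).2 ?_ hu
      rintro _ ⟨_, ⟨τ, hτ, j, h0, rfl⟩, rfl⟩
      change (fun o => algebraMap ℚ ℂ (cst _ o)) ∈ Submodule.span ℂ _
      rw [← Submodule.smul_mem_iff _ h0, ← hc ⟨τ, hτ⟩]
      have := tp_mem (Z := fun o => tp V (Z ⟨τ, hτ⟩ o)) (fun i => by
        simp only [hZ]
        exact Submodule.subset_span (R := ℂ) (Set.mem_range_self (f := fun q : Σ τ : S,
          Fin τ.1.r → n => zz (2 * (q.1.1.r - 2 * q.1.1.k) * q.1.1.t q.2, x q)) ⟨_, i⟩)) V⁻¹ j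
      simpa only [tp_mul, u2, tp_one] using this
    · rintro _ ⟨⟨τ, i⟩, rfl⟩
      have := tp_mem (L := bc (Submodule.span ℚ (cst '' chr V ε S))) (Z := Z τ) (fun j => by
        rw [hc]
        by_cases h0 : tp V⁻¹ (fun j => (τ.1.t j : ℂ)) j = 0
        · rw [h0, zero_smul]
          exact Submodule.zero_mem _
        · exact Submodule.smul_mem _ _ (Submodule.subset_span
            ⟨_, Submodule.subset_span ⟨_, ⟨τ, τ.2, j, h0, rfl⟩, rfl⟩, rfl⟩)) V i
      simp only [hZ] at this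
      exact this
  refine ⟨x, fun q => ?_, h2, ?_⟩
  · simp only [der, ofReal_sum, ofReal_mul, hμ, ofReal_ratCast, mul_assoc, x, map_sum, map_mul, map_ratCast, Finset.mul_sum]
  · rw [← finrank_bc U, h2, ← rank_pair]
    refine congrArg (fun L : Submodule ℚ _ => finrank ℚ L)
      (le_antisymm (Submodule.span_le.2 ?_) ?_)
    · rintro f ⟨X, hX, c, hf⟩
      obtain ⟨l, rfl⟩ := (rankm_hull h hμ).1 hX
      refine ⟨((c / 2) • LinearMap.id).coprod l, funext fun ⟨τ, i⟩ => ?_⟩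
      simp only [LinearMap.pi_apply, Dual.eval_apply, LinearMap.coprod_apply, LinearMap.smul_apply, LinearMap.id_coe, id_eq, smul_eq_mul, hl, hf]
      ring
    · rintro _ ⟨l, rfl⟩
      refine Submodule.subset_span ⟨_, (rankm_hull h hμ).2 ⟨l ∘ₗ LinearMap.inr ℚ ℚ E, rfl⟩,
        2 * l (1, 0), fun τ i => ?_⟩
      rw [← hl _ ⟨τ, i⟩]
      change l _ = l (0, _) + _
      rw [show 2 * l (1, 0) * ((τ.1.r : ℚ) - 2 * τ.1.k) * τ.1.t i =
        (2 * ((τ.1.r : ℚ) - 2 * τ.1.k) * τ.1.t i) • l (1, 0) by rw [smul_eq_mul]; ring,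
        ← map_smul, ← map_add]
      simp

end

variable {E : Type} [Field E] [NumberField E] {ι κ : Type} {b₀ : E →+* ℂ} {g N d : ℕ}
  {U U' : Submodule ℚ (Option (E →+* ℂ) → ℚ)} {V V' : Submodule ℚ ℝ}
  {y : Option (E →+* ℂ) → ℂ}

/-- The space `U` of characters is described by the space `V` of real numbers. -/
def Dat (b₀ : E →+* ℂ) (U : Submodule ℚ (Option (E →+* ℂ) → ℚ)) (V : Submodule ℚ ℝ) : Prop :=
  U ≤ X ⊤ ∧ ∀ u, u ∈ U ↔ ∃ c : Fin (finrank ℚ E) → ℂ,
    (∀ ψ : E →+* ℂ, ∑ l, c l * ψ (finBasis ℚ E l) = u (some ψ)) ∧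
      ∀ π : ℂ →ₗ[ℚ] ℚ, ∃ v ∈ V, (v : ℂ) = I * b₀ (∑ l, π (c l) • finBasis ℚ E l)

theorem Dat.mono (h : Dat b₀ U V) (h' : Dat b₀ U' V') (a : V ≤ V') : U ≤ U' := fun u hu =>
  (h'.2 u).2 (((h.2 u).1 hu).imp fun _ c => ⟨c.1, fun π => (c.2 π).imp fun _ e => ⟨a e.1, e.2⟩⟩)

theorem Dat.inf (h : Dat b₀ U V) (h' : Dat b₀ U' V') : Dat b₀ (U ⊓ U') (V ⊓ V') := by
  refine ⟨inf_le_left.trans h.1, fun u => ⟨fun ⟨a, b⟩ => ?_, fun ⟨c, hc, hv⟩ =>
    ⟨(h.2 u).2 ⟨c, hc, fun π => (hv π).imp fun _ e => ⟨e.1.1, e.2⟩⟩,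
      (h'.2 u).2 ⟨c, hc, fun π => (hv π).imp fun _ e => ⟨e.1.2, e.2⟩⟩⟩⟩⟩
  obtain ⟨c, hc, hv⟩ := (h.2 u).1 a
  obtain ⟨c', hc', hv'⟩ := (h'.2 u).1 b
  obtain rfl : c' = c := sub_eq_zero.1 (vec_perp (finBasis ℚ E) fun ψ => by
    simp only [Pi.sub_apply, sub_mul, Finset.sum_sub_distrib, hc, hc', sub_self])
  refine ⟨c', hc, fun π => ?_⟩
  obtain ⟨v, a, e⟩ := hv π
  obtain ⟨v', a', e'⟩ := hv' π
  rw [← e, ofReal_inj] at e'
  exact ⟨v, ⟨a, e' ▸ a'⟩, e⟩

theorem Dat.ne (P : Pk d b₀ y) (h : Dat b₀ U V) (hb : rk y U < finrank ℚ U) : V ≠ ⊥ := by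
  rintro rfl
  have a : U ≤ Submodule.span ℚ {cst e₀} := fun u hu => by
    obtain ⟨c, hc, hv⟩ := (h.2 u).1 hu
    obtain rfl : c = 0 := funext fun j => (forall_dual_apply_eq_zero_iff ℚ _).1 fun π => by
      obtain ⟨v, a, e⟩ := hv π
      rw [Submodule.mem_bot] at a
      rw [a, ofReal_zero, eq_comm, mul_eq_zero_iff_left I_ne_zero, map_eq_zero] at e
      exact Fintype.linearIndependent_iff.1 (finBasis ℚ E).linearIndependent _ e j
    refine Submodule.mem_span_singleton.2 ⟨u none, funext fun o => ?_⟩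
    cases o with
    | none => simp [cst, e₀]
    | some ψ => exact Rat.cast_injective (α := ℂ) (Eq.trans (by simp only [Pi.smul_apply, cst, e₀, Option.elim_some, Int.cast_zero, smul_eq_mul, mul_zero, Rat.cast_zero, Pi.zero_apply, zero_mul, Finset.sum_const_zero]) (hc ψ))
  have h2 := (Submodule.finrank_mono a).trans (finrank_span_le_card _)
  have h3 := trdeg_eq (per y U)
  rw [← rk_eq P.ne, show rk y U = 0 by simp at h2; omega, Nat.cast_zero, trdeg_eq_zero_iff] at h3
  have h4 := mem_cl.1 (sub_cl (per y U) ⟨e₀, (h.2 _).2 ⟨0, by simp only [Pi.zero_apply, zero_mul, Finset.sum_const_zero, cst, e₀, Option.elim_some, Int.cast_zero, Rat.cast_zero, implies_true], fun π =>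
    ⟨0, Submodule.zero_mem _, by simp only [ofReal_zero, Pi.zero_apply, map_zero, zero_smul, Finset.sum_const_zero, mul_zero]⟩⟩, rfl⟩)
  rw [show mon y e₀ = y none by simp [mon, e₀]] at h4
  exact P.tr (h4.restrictScalars ℚ)

open Classical in
/-- One space of real numbers describes all exceptions. -/
theorem exists_W {B : Type} (V : B → Submodule ℚ ℝ) (hV : ∀ x, FiniteDimensional ℚ (V x))
    (b : B → Prop) (H : ∀ s : Finset B, ∃ (E : Type) (_ : Field E) (_ : NumberField E) (d : ℕ)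
      (b₀ : E →+* ℂ) (y : Option (E →+* ℂ) → ℂ), Pk d b₀ y ∧
        ∀ x ∈ s, ∃ U, Dat b₀ U (V x) ∧ (b x ↔ rk y U < finrank ℚ U)) :
    ∃ W, W ≠ ⊥ ∧ ∀ x, W ≤ V x ↔ b x := by
  by_cases hB : ∃ x, b x
  · obtain ⟨x₀, h₀⟩ := hB
    obtain ⟨s, ⟨hs, hb⟩, hm⟩ := (measure fun s : Finset B =>
      finrank ℚ (s.inf V : Submodule ℚ ℝ)).wf.has_min {s | s.Nonempty ∧ ∀ x ∈ s, b x}
        ⟨{x₀}, Finset.singleton_nonempty _, by simpa using h₀⟩
    have key : ∀ x, s.inf V ≠ ⊥ ∧ (s.inf V ≤ V x → b x) := fun x => by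
      obtain ⟨E, _, _, d, b₀, y, P, h⟩ := H (insert x s)
      have h1 : ∀ t : Finset B, t.Nonempty → t ⊆ s →
          ∃ U, Dat b₀ U (t.inf V) ∧ rk y U < finrank ℚ U := fun t ht hs => by
        have c : ∀ k ∈ s, ∃ U, Dat b₀ U (V k) ∧ rk y U < finrank ℚ U := fun k hk =>
          (h k (Finset.mem_insert_of_mem hk)).imp fun _ a => ⟨a.1, a.2.1 (hb k hk)⟩
        induction ht using Finset.Nonempty.cons_induction with
        | singleton k => simpa only [Finset.inf_singleton] using c k (hs (Finset.mem_singleton_self k))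
        | cons k t _ ht ih =>
          obtain ⟨U, a, a'⟩ := c k (hs (Finset.mem_cons_self _ _))
          obtain ⟨U', e, e'⟩ := ih ((Finset.subset_cons _).trans hs)
          rw [Finset.inf_cons]
          exact ⟨_, a.inf e, bad_inf P.ne P.one a.1 e.1 a' e'⟩
      obtain ⟨U, a, a'⟩ := h1 s hs subset_rfl
      obtain ⟨U', e, e'⟩ := h x (Finset.mem_insert_self _ _)
      refine ⟨a.ne P a', fun l => e'.2 ?_⟩
      have := def_mono P.ne (a.mono e l)
      omega
    refine ⟨s.inf V, (key x₀).1, fun x => ⟨(key x).2, fun hx => ?_⟩⟩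
    have : FiniteDimensional ℚ (s.inf V : Submodule ℚ ℝ) :=
      Submodule.finiteDimensional_of_le (Finset.inf_le hs.choose_spec)
    exact (Submodule.eq_of_le_of_finrank_le (Finset.inf_mono (Finset.subset_insert x s))
      (not_lt.1 (hm _ ⟨Finset.insert_nonempty x s,
        Finset.forall_mem_insert _ _ _ |>.2 ⟨hx, hb⟩⟩))).ge.trans
        (Finset.inf_le (Finset.mem_insert_self x s))
  · refine ⟨⊤, top_ne_bot, fun x => iff_of_false (fun a => ?_) fun a => hB ⟨x, a⟩⟩
    have := Module.finite_def.2 (top_unique a ▸ Module.Finite.iff_fg.1 (hV x))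
    exact Pool.Agent.Lib.PiTransc.transcendental_pi (Algebra.IsAlgebraic.isAlgebraic _)

theorem dat_of [IsCMField E] {a : κ → ℚ} {x : κ → E} {v : κ → ℝ}
    (hv : ∀ q, (v q : ℂ) = I * b₀ (x q))
    (hU : bc U = Submodule.span ℂ (Set.range fun q => zz (a q, x q))) :
    U ≤ X ⊤ ∧ ((∀ q, a q = 0) → U ≤ O₀ E) ∧
      ((∃ q, a q ≠ 0) → Dat b₀ U (Submodule.span ℚ (Set.range v))) := by
  obtain ⟨π₀, hπ⟩ := (Algebra.linearMap ℚ ℂ).exists_leftInverse_of_injective
    (LinearMap.ker_eq_bot.2 (algebraMap ℚ ℂ).injective)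
  have h5 : ∀ q : ℚ, π₀ q = q := fun q => LinearMap.congr_fun hπ q
  have hm : ∀ u ∈ U, (fun o => (u o : ℂ)) ∈ Submodule.span ℂ (Set.range fun q => zz (a q, x q)) :=
    fun u hu => hU ▸ Submodule.subset_span ⟨u, hu, rfl⟩
  have hx : ∀ q (ψ : E →+* ℂ), conjugate ψ (x q) = -ψ (x q) := fun q ψ => by
    have e : IsCMField.complexConj E (x q) = -x q := b₀.injective (by
      have := congrArg (starRingEnd ℂ) (hv q)
      rw [conj_ofReal, hv, map_mul, conj_I, neg_mul, ← mul_neg, mul_right_inj' I_ne_zero] at this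
      rw [IsCMField.complexEmbedding_complexConj, map_neg, this, neg_neg, ← this])
    rw [conjugate_coe_eq, ← IsCMField.complexEmbedding_complexConj, e, map_neg]
  have h1 : U ≤ X ⊤ := fun u hu => by
    refine ⟨fun ψ => Rat.cast_injective (α := ℂ) ?_, fun ψ χ h => by
      rw [RingHom.ext fun x => h x IntermediateField.mem_top]⟩
    have : ∀ f ∈ Submodule.span ℂ (Set.range fun q => zz (a q, x q)),
        f (some (conjugate ψ)) = -f (some ψ) := fun f hf => by
      induction hf using Submodule.span_induction with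
      | mem _ h =>
        obtain ⟨q, rfl⟩ := h
        exact hx q ψ
      | zero => simp
      | add _ _ _ _ h h' => rw [Pi.add_apply, Pi.add_apply, h, h', neg_add]
      | smul _ _ _ h => rw [Pi.smul_apply, Pi.smul_apply, h, smul_neg]
    rw [Rat.cast_neg]
    exact this _ (hm u hu)
  refine ⟨h1, fun h u hu => ⟨h1 hu, Rat.cast_injective (α := ℂ) ?_⟩, fun ⟨q₀, h₀⟩ =>
    ⟨h1, fun u => ⟨fun hu => ?_, fun ⟨c, hc, hw⟩ => ?_⟩⟩⟩
  · have : Submodule.span ℂ (Set.range fun q => zz (a q, x q)) ≤ LinearMap.ker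
        (LinearMap.proj none : _ →ₗ[ℂ] ℂ) := Submodule.span_le.2 (by
      rintro _ ⟨q, rfl⟩
      simp [zz_none, h])
    exact (this (hm u hu)).trans Rat.cast_zero.symm
  · suffices ∀ f ∈ Submodule.span ℂ (Set.range fun q => zz (a q, x q)),
        ∃ c : Fin (finrank ℚ E) → ℂ, (∀ ψ : E →+* ℂ, ∑ l, c l * ψ (finBasis ℚ E l) = f (some ψ)) ∧
          ∀ π : ℂ →ₗ[ℚ] ℚ, ∃ w ∈ Submodule.span ℚ (Set.range v),
            (w : ℂ) = I * b₀ (∑ l, π (c l) • finBasis ℚ E l) from this _ (hm u hu)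
    intro f hf
    induction hf using Submodule.span_induction with
    | mem _ h =>
      obtain ⟨q, rfl⟩ := h
      refine ⟨fun l => (finBasis ℚ E).repr (x q) l, fun ψ => ?_, fun π => ⟨π 1 • v q,
        Submodule.smul_mem _ _ (Submodule.subset_span ⟨q, rfl⟩), ?_⟩⟩
      · simp only [zz_some]
        conv_rhs => rw [← (finBasis ℚ E).sum_repr (x q)]
        simp only [Rat.smul_def, map_sum, map_mul, map_ratCast]
      · have : ∀ t : ℚ, π t = π 1 * t := fun t => by
          rw [mul_comm, ← smul_eq_mul, ← map_smul, Rat.smul_one_eq_cast]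
        simp only [this ((finBasis ℚ E).repr _ _), mul_smul, ← Finset.smul_sum, Basis.sum_repr]
        simp only [Rat.smul_def, ofReal_mul, ofReal_ratCast, hv, mul_left_comm, map_mul, map_ratCast]
    | zero => exact ⟨0, by simp only [Pi.zero_apply, zero_mul, Finset.sum_const_zero, implies_true], fun π => ⟨0, Submodule.zero_mem _, by simp only [ofReal_zero, Pi.zero_apply, map_zero, zero_smul, Finset.sum_const_zero, mul_zero]⟩⟩
    | add f f' _ _ h h' =>
      obtain ⟨c, hc, hw⟩ := h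
      obtain ⟨c', hc', hw'⟩ := h'
      refine ⟨c + c', fun ψ => by simp only [Pi.add_apply, add_mul, Finset.sum_add_distrib, hc, hc'], fun π => ?_⟩
      obtain ⟨w, m, e⟩ := hw π
      obtain ⟨w', m', e'⟩ := hw' π
      exact ⟨_, add_mem m m', by
        simp only [ofReal_add, e, e', Pi.add_apply, map_add, add_smul, Finset.sum_add_distrib,
          mul_add]⟩
    | smul t f _ h =>
      obtain ⟨c, hc, hw⟩ := h
      exact ⟨t • c, fun ψ => by simp only [Pi.smul_apply, smul_eq_mul, mul_assoc, ← Finset.mul_sum, hc],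
        fun π => hw (π ∘ₗ LinearMap.mulLeft ℚ t)⟩
  · have hz : ∀ q (π : ℂ →ₗ[ℚ] ℚ), (fun o => π (zz (a q, x q) o)) ∈ U := fun q =>
      (mem_bc U _).1 (hU ▸ Submodule.subset_span ⟨q, rfl⟩)
    have he : ∀ t : ℚ, (fun o : Option (E →+* ℂ) => o.elim t fun _ => 0) ∈ U := fun t => by
      have := U.smul_mem (t / (2 * a q₀)) (add_mem (hz q₀ π₀)
        (hz q₀ (π₀ ∘ₗ (starRingEnd ℂ).toRatAlgHom.toLinearMap)))
      convert this using 2 with o
      cases o with
      | none =>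
        simp [zz_none, h5]
        field_simp
        norm_num
      | some ψ =>
        have := hx q₀ ψ
        rw [conjugate_coe_eq] at this
        simp only [Option.elim_some, LinearMap.coe_comp, AlgHom.coe_toLinearMap, Function.comp_apply, RingHom.toRatAlgHom_apply, Pi.smul_apply, Pi.add_apply, zz_some, this, map_neg, add_neg_cancel, smul_eq_mul, mul_zero]
    let L : Submodule ℚ E := Submodule.span ℚ (Set.range x)
    have hL : ∀ z ∈ L, ∀ π : ℂ →ₗ[ℚ] ℚ,
        (fun o : Option (E →+* ℂ) => o.elim 0 fun ψ => π (ψ z)) ∈ U := fun z hz' π => by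
      induction hz' using Submodule.span_induction with
      | mem _ h =>
        obtain ⟨q, rfl⟩ := h
        convert sub_mem (hz q π) (he (π (a q))) using 2 with o
        cases o <;> simp [zz_none, zz_some]
      | zero => convert U.zero_mem using 2 with o; cases o <;> simp only [map_zero, Option.elim_none, Pi.zero_apply, Option.elim_some]
      | add _ _ _ _ h h' => convert add_mem h h' using 2 with o; cases o <;> simp
      | smul t _ _ h =>
        convert U.smul_mem t h using 2 with o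
        cases o <;> simp only [map_rat_smul, map_smul, smul_eq_mul, Option.elim_none, Pi.smul_apply, mul_zero, Option.elim_some]
    have h3 : c ∈ bc (L.map (finBasis ℚ E).equivFun.toLinearMap) := (mem_bc _ _).2 fun π => by
      obtain ⟨w, m, e⟩ := hw π
      refine ⟨∑ l, π (c l) • finBasis ℚ E l, ?_, funext fun l => by simp only [map_sum, map_smul, LinearEquiv.coe_coe, Basis.equivFun_apply, Basis.repr_self, Finset.sum_apply, Pi.smul_apply, Finsupp.single_apply, smul_eq_mul, mul_ite, mul_one, mul_zero, Finset.sum_ite_eq', Finset.mem_univ, ↓ reduceIte]⟩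
      have : Submodule.span ℚ (Set.range v) ≤ (L.map (LinearMap.mulLeft ℚ I ∘ₗ
          b₀.toRatAlgHom.toLinearMap)).comap ofRealHom.toRatAlgHom.toLinearMap :=
        Submodule.span_le.2 (by
          rintro _ ⟨q, rfl⟩
          exact ⟨x q, Submodule.subset_span ⟨q, rfl⟩, (hv q).symm⟩)
      obtain ⟨z, hz, e'⟩ := this m
      exact b₀.injective (mul_left_cancel₀ I_ne_zero (e'.trans e)) ▸ hz
    have h4 : ∀ c ∈ bc (L.map (finBasis ℚ E).equivFun.toLinearMap), ∀ π : ℂ →ₗ[ℚ] ℚ,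
        (fun o : Option (E →+* ℂ) => o.elim 0 fun ψ => π (∑ l, c l * ψ (finBasis ℚ E l))) ∈ U := by
      intro c hc
      induction hc using Submodule.span_induction with
      | mem _ h =>
        obtain ⟨_, ⟨z, hz, rfl⟩, rfl⟩ := h
        intro π
        convert hL z hz π using 5 with o ψ
        conv_rhs => rw [← (finBasis ℚ E).sum_repr z]
        simp only [LinearEquiv.coe_coe, Basis.equivFun_apply, eq_ratCast, Rat.smul_def, map_sum, map_mul, map_ratCast]
      | zero => intro π; convert U.zero_mem using 2 with o; cases o <;> simp only [Pi.zero_apply, zero_mul, Finset.sum_const_zero, map_zero, Option.elim_none, Option.elim_some]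
      | add _ _ _ _ h h' =>
        intro π
        convert add_mem (h π) (h' π) using 2 with o
        cases o <;> simp only [Pi.add_apply, add_mul, Finset.sum_add_distrib, map_add, map_sum, Option.elim_none, add_zero, Option.elim_some]
      | smul t _ _ h =>
        intro π
        convert h (π ∘ₗ LinearMap.mulLeft ℚ t) using 2 with o
        cases o <;> simp only [Pi.smul_apply, smul_eq_mul, mul_assoc, map_sum, Option.elim_none, LinearMap.coe_comp, Function.comp_apply, LinearMap.mulLeft_apply, Option.elim_some]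
    convert add_mem (h4 c h3 π₀) (he (u none)) using 1
    funext o
    cases o <;> simp [hc, h5]

theorem mon_sum (P : Pk d b₀ y) (s : Finset κ) (u : κ → Option (E →+* ℂ) → ℤ) :
    mon y (∑ a ∈ s, u a) = ∏ a ∈ s, mon y (u a) := by
  classical
  induction s using Finset.induction_on with
  | empty => simp [mon]
  | insert a s ha ih => rw [Finset.sum_insert ha, Finset.prod_insert ha, mon_add P.ne, ih]

variable [IsCMField E] [IsGalois ℚ E]

theorem pk_pi (P : Pk d b₀ y) :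
    IsAlgebraic ℚ ((2 * Real.pi * I) ^ 4 / mon y ((4 : ℤ) • e₀)) := by
  have e := Fintype.equivFin (E →+* ℂ)
  have h : Ty {φ : E →+* ℂ | e φ < e (conjugate φ)} := fun φ => by
    have : e φ ≠ e (conjugate φ) := fun a => IsTotallyComplex.complexEmbedding_not_isReal φ
      (isReal_iff.2 (e.injective a).symm)
    have b : conjugate (conjugate φ) = φ := star_star φ
    simp only [Set.mem_ofPred_eq, b]
    omega
  obtain ⟨N, A, b, hA⟩ := P.fam _ h
  obtain ⟨p, hp⟩ := exists_per hA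
  have a := ((P.alg _ p b₀ ⟨N, A, b, hA, hp⟩).mul
    (P.alg _ p (conjugate b₀) ⟨N, A, b, hA, hp⟩)).mul ((hp.leg b₀).inv.pow 4)
  rw [div_mul_div_comm, ← mon_add P.ne, show ex 2 b₀ _ b₀ + ex 2 b₀ _ (conjugate b₀) = (4 : ℤ) • e₀
    from funext fun o => by
      cases o with
      | none => rfl
      | some ψ => simp only [Pi.add_apply, (ex_conj h 2 b₀ ψ).1, add_neg_cancel, Pi.smul_apply, e₀, Option.elim_some, Int.zsmul_eq_mul, mul_zero], ← mul_pow, inv_div, div_pow,
    div_mul_div_comm, mul_comm (mon y _),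
    mul_div_mul_left _ _ (pow_ne_zero 4 (mul_ne_zero (hp.ne _) (hp.ne _)))] at a
  exact a

theorem pk_T (P : Pk d b₀ y) {A : AbVar g N} (T : Ev A.J E ι) (h : Cm A.J)
    (S : Set (Ten (Fin (2 * g)))) : ∃ U, Algebra.trdeg ℚ (perT A S) = rk y U ∧
      finrank ℚ (orb A.J S) = finrank ℚ U ∧
      ((∀ τ ∈ S, τ.t = 0 ∨ (τ.r : ℤ) = 2 * τ.k) → U ≤ O₀ E) ∧
      (¬(∀ τ ∈ S, τ.t = 0 ∨ (τ.r : ℤ) = 2 * τ.k) → Dat b₀ U (Submodule.span ℚ
        {v | ∃ τ ∈ S, ∃ i, v = der A.J (fun j => (τ.t j : ℝ)) i})) := by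
  obtain ⟨p, hp⟩ := T.per P.fam
  obtain ⟨s, hs⟩ := exists_sel T.top
  obtain ⟨x, h1, h2, h3⟩ := rank_T T h b₀ s rfl hs S rfl
  obtain ⟨-, h4, h5⟩ := dat_of h1 h2
  have h0 : ∀ u, mon y u ≠ 0 := fun u =>
    Finset.prod_ne_zero_iff.2 fun i _ => zpow_ne_zero _ (P.ne i)
  have ha : ∀ (τ : Ten (Fin (2 * g))) (j : Fin τ.r → Fin (2 * g)), IsAlgebraic ℚ
      (((∏ a, p (s (j a)).1 (s (j a)).2) / (2 * Real.pi * I) ^ τ.k) ^ 4 / mon y
        (∑ a, ex 2 b₀ (T.Φ (s (j a)).1) (s (j a)).2 - τ.k • (4 : ℤ) • e₀)) := fun τ j => by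
    have a := mem_algebraicClosure_iff.1 (mul_mem (prod_mem fun a (_ : a ∈ Finset.univ) =>
      mem_algebraicClosure_iff.2 (P.alg _ _ (s (j a)).2 (hp (s (j a)).1).1))
      (zpow_mem (mem_algebraicClosure_iff.2 (pk_pi P)) (-τ.k)))
    rw [sub_eq_add_neg, ← neg_smul, mon_add P.ne, mon_smul, mon_sum P]
    rw [Finset.prod_div_distrib, Finset.prod_pow, div_zpow, div_mul_div_comm,
      ← zpow_natCast (2 * _ * I), ← _root_.zpow_mul, mul_neg, _root_.zpow_neg, mul_comm _ τ.k,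
      _root_.zpow_mul, zpow_natCast, ← div_eq_mul_inv, ← div_pow] at a
    exact a
  refine ⟨_, ?_, h3, fun a => h4 fun q => ?_, fun a => ?_⟩
  · rw [trdeg_T (q := fun k => p (s k).1 (s k).2) hs (fun j k => (Algebra.IsAlgebraic.isAlgebraic
      (R := ℚ) _).algHom (s k).2.toRatAlgHom) (fun k => (hp _).1.ne _) (fun k => (hp _).2 _),
      crk_mon P.ne]
    · rintro _ ⟨τ, hτ, j, a, rfl⟩
      exact ⟨_, ⟨τ, hτ, j, a, rfl⟩, ha τ j⟩
    · rintro _ ⟨τ, hτ, j, a, rfl⟩
      exact ⟨_, ⟨τ, hτ, j, a, rfl⟩, div_ne_zero (Finset.prod_ne_zero_iff.2 fun _ _ => (hp _).1.ne _)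
        (zpow_ne_zero _ two_pi_I_ne_zero), ha τ j⟩
  · rcases a _ q.1.2 with b | b
    · simp [b]
    · rw [show (q.1.1.r : ℚ) = 2 * q.1.1.k by exact_mod_cast b, sub_self, mul_zero, zero_mul]
  · simp only [not_forall, not_or] at a
    obtain ⟨τ, hτ, b, c⟩ := a
    obtain ⟨i, hi⟩ := Function.ne_iff.1 b
    convert h5 ⟨⟨⟨τ, hτ⟩, i⟩, mul_ne_zero (mul_ne_zero two_ne_zero
      (sub_ne_zero.2 (by exact_mod_cast c))) hi⟩ using 2
    exact Set.ext fun v => ⟨fun ⟨τ, hτ, i, e⟩ => ⟨⟨⟨τ, hτ⟩, i⟩, e.symm⟩,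
      fun ⟨q, e⟩ => ⟨_, q.1.2, q.2, e.symm⟩⟩

theorem per_zero (A : AbVar g N) (h : ∀ X ∈ hull A.J, ∀ Y ∈ hull A.J, X * Y = Y * X)
    (S : Set (Ten (Fin (2 * g)))) (hS : ∀ τ ∈ S, (τ.r : ℤ) = 2 * τ.k) :
    Algebra.trdeg ℚ (perT A S) = finrank ℚ (orb A.J S) := by
  obtain ⟨E, _, _, _, _, ι, T, d, b₀, y, P⟩ := exists_all (fun _ : Unit => A) fun _ => cm_of h
  obtain ⟨U, h1, h2, h3, -⟩ := pk_T P (T ()) (cm_of h) S
  rw [h1, h2, P.zero U (h3 fun τ a => Or.inr (hS τ a))]

open Classical in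
theorem per_T : ∃ W : Submodule ℚ ℝ, W ≠ ⊥ ∧ ∀ (g N : ℕ) (A : AbVar g N),
    (∀ X ∈ hull A.J, ∀ Y ∈ hull A.J, X * Y = Y * X) → ∀ S : Set (Ten (Fin (2 * g))),
      (∃ τ ∈ S, τ.t ≠ 0 ∧ (τ.r : ℤ) ≠ 2 * τ.k) → Algebra.trdeg ℚ (perT A S) + (if W ≤
        Submodule.span ℚ {v | ∃ τ ∈ S, ∃ i, v = der A.J (fun j => (τ.t j : ℝ)) i} then 1 else 0) =
          finrank ℚ (orb A.J S) := by
  let B := {x : Σ p : ℕ × ℕ, AbVar p.1 p.2 × Set (Ten (Fin (2 * p.1))) //
    Cm x.2.1.J ∧ ¬∀ τ ∈ x.2.2, τ.t = 0 ∨ (τ.r : ℤ) = 2 * τ.k}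
  obtain ⟨W, h0, hW⟩ := exists_W (B := B) (fun x => Submodule.span ℚ
    {v | ∃ τ ∈ x.1.2.2, ∃ i, v = der x.1.2.1.J (fun j => (τ.t j : ℝ)) i}) (fun x => by
      have := FiniteDimensional.span_of_finite ℚ
        (Set.finite_range fun z : _ × _ => x.1.2.1.J z.1 z.2)
      refine Submodule.finiteDimensional_of_le (S₂ := Submodule.span ℚ
        (Set.range fun z : _ × _ => x.1.2.1.J z.1 z.2)) (Submodule.span_le.2 ?_)
      rintro _ ⟨τ, -, i, rfl⟩
      refine Submodule.sum_mem _ fun a _ => Submodule.sum_mem _ fun m _ => ?_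
      rw [mul_comm (x.1.2.1.J _ _), ← Rat.smul_def]
      exact Submodule.smul_mem _ _ (Submodule.subset_span ⟨(_, m), rfl⟩))
    (fun x => Algebra.trdeg ℚ (perT x.1.2.1 x.1.2.2) ≠ finrank ℚ (orb x.1.2.1.J x.1.2.2)) fun s => by
      obtain ⟨E, _, _, _, _, ι, T, d, b₀, y, P⟩ :=
        exists_all (fun k : s => k.1.1.2.1) fun k => k.1.2.1
      refine ⟨E, _, _, d, b₀, y, P, fun x hx => ?_⟩
      obtain ⟨U, h1, h2, -, h3⟩ := pk_T P (T ⟨x, hx⟩) x.2.1 x.1.2.2
      refine ⟨U, h3 x.2.2, ?_⟩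
      rw [h1, h2, Ne, Nat.cast_inj]
      exact (rk_fin P.ne U).lt_iff_ne.symm
  refine ⟨W, h0, fun g N A h S ⟨τ, hτ, c⟩ => ?_⟩
  obtain ⟨E, _, _, _, _, ι, T, d, b₀, y, P⟩ := exists_all (fun _ : Unit => A) fun _ => cm_of h
  obtain ⟨U, h1, h2, -, h4⟩ := pk_T P (T ()) (cm_of h) S
  have a : ¬∀ τ ∈ S, τ.t = 0 ∨ (τ.r : ℤ) = 2 * τ.k := fun a => (a τ hτ).elim c.1 c.2
  have b := hW ⟨⟨(g, N), A, S⟩, cm_of h, a⟩
  split_ifs with c
  · have e := b.1 c
    have h5 := def_mono P.ne (h4 a).1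
    have h6 := P.one
    have h7 := rk_fin P.ne U
    simp only [h1, h2, Ne, Nat.cast_inj] at e ⊢
    norm_cast
    omega
  · rw [add_zero]
    exact by_contra fun e => c (b.2 e)

end GPC96
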